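import Pool.Agent.ASE.Stmts9
import Pool.Agent.Helper86_ASO.ONB
import Pool.Agent.Helper46_PP.Alg

/-!
# Squad ASE, row BRE (helper13): the block `1 × θ` of `V₀ ⋊ S₁`
-/

set_option autoImplicit false

open scoped BigOperators

noncomputable section

namespace Pool.Agent.PP.SE.H13

open Pool.Agent.Helper51_AWC Pool.Agent.Helper79_WRA Pool.Agent.PP Pool.Agent.PP.KF
open Pool.Agent.PP.K9 Pool.Agent.PP.K9.H97 Pool.Agent.PP.H75 Pool.Agent.PP.T3 Pool.Agent.PP.SO
open Pool.Agent.PP.SD

attribute [local instance] Ideal.Quotient.field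

/-- the product with a function supported in the image of an injective homomorphism -/
theorem mulF_inj {F A K : Type} [Field F] [Group A] [Finite A] [Group K] (ι : K →* A)
    (hι : Function.Injective ι) {f : A → F} (g : A → F) (hf : ∀ a, a ∉ ι.range → f a = 0) (a : A) :
    mulF f g a = ∑ᶠ k : K, f (ι k) * g (ι k⁻¹ * a) := by
  unfold mulF
  rw [sum_sub ι.range _ (fun x hx => by rw [hf x hx, zero_mul])]
  symm
  refine finsum_eq_of_bijective ι.rangeRestrict ⟨?_, ι.rangeRestrict_surjective⟩ fun k => ?_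
  · intro x y h
    exact hι (congrArg Subtype.val h)
  · rw [map_inv]
    rfl

theorem sd_conj_left {V₀ S : Type} [CommGroup V₀] [Group S] (φ : S →* MulAut V₀)
    (x y : V₀ ⋊[φ] S) (hx : φ x.right = 1) : (y * x * y⁻¹).left = φ y.right x.left := by
  have h1 : φ (y.right * x.right) = φ y.right := by rw [map_mul, hx, mul_one]
  rw [SemidirectProduct.mul_left, SemidirectProduct.mul_left, SemidirectProduct.mul_right, h1,
    SemidirectProduct.inv_left, ← MulAut.mul_apply, ← map_mul, mul_inv_cancel, map_one,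
    MulAut.one_apply, mul_comm y.left, mul_assoc, mul_inv_cancel, mul_one]

theorem sd_conj_right {V₀ S : Type} [CommGroup V₀] [Group S] (φ : S →* MulAut V₀)
    (x y : V₀ ⋊[φ] S) : (y * x * y⁻¹).right = y.right * x.right * y.right⁻¹ := by
  rw [SemidirectProduct.mul_right, SemidirectProduct.mul_right, SemidirectProduct.inv_right]

/-- `eR` is a class function -/
theorem eR_cl {F V₀ S : Type} [Field F] [CommGroup V₀] [Group S] (φ : S →* MulAut V₀)
    {θ : S → F} (hs : ∀ x, x ∉ φ.ker → θ x = 0) (hc : IsCl θ) : IsCl (eR φ θ) := by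
  intro x y
  unfold eR
  by_cases hx : φ x.right = 1
  · rw [sd_conj_left φ x y hx, sd_conj_right, hc]
    by_cases h1 : x.left = 1
    · rw [if_pos h1, if_pos (by rw [h1, map_one])]
    · rw [if_neg h1, if_neg (fun h2 => h1 (by
        rwa [map_eq_one_iff _ (MulEquiv.injective _)] at h2))]
  · have h1 : θ x.right = 0 := hs _ (fun h => hx (MonoidHom.mem_ker.1 h))
    rw [sd_conj_right, hc, h1]
    simp only [ite_self]

/-- powers of an element which acts trivially -/
theorem sd_pow {V₀ S : Type} [CommGroup V₀] [Group S] (φ : S →* MulAut V₀)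
    (x : V₀ ⋊[φ] S) (hx : φ x.right = 1) (n : ℕ) : (x ^ n).left = x.left ^ n ∧
      (x ^ n).right = x.right ^ n := by
  induction n with
  | zero =>
    rw [pow_zero, pow_zero, pow_zero]
    exact ⟨rfl, rfl⟩
  | succ n ih =>
    rw [pow_succ, SemidirectProduct.mul_left, SemidirectProduct.mul_right, ih.1, ih.2, map_pow, hx,
      one_pow, MulAut.one_apply, pow_succ, pow_succ]
    exact ⟨rfl, rfl⟩

theorem bre_gen {ℓ : ℕ} [hℓ : Fact ℓ.Prime] {M : Ideal (integralClosure ℤ ℂ)} [M.IsMaximal]
    (hM : (ℓ : integralClosure ℤ ℂ) ∈ M) {V₀ S A : Type} [CommGroup V₀] [Finite V₀] [Group S]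
    [Finite S] [Group A] [Finite A] (φ : S →* MulAut V₀) (θ : S → FF M)
    (hex : ∀ v : V₀, v ^ ℓ = 1) (hbx : Bx φ.ker θ) (hcl : IsCl θ) (p : A →* V₀ ⋊[φ] S)
    (hp : Function.Injective p) (ι : φ.ker →* A)
    (hι : ∀ s, p (ι s) = SemidirectProduct.inr (s : S)) (η : V₀ →* A)
    (hη : ∀ v, p (η v) = SemidirectProduct.inl v) :
    IsBlk (fun a : A => eR φ θ (p a)) := by
  have hF : GoodF ℓ (FF M) := H50.fld ℓ Fact.out M hM
  have hecl := eR_cl φ hbx.supp hcl
  obtain ⟨f, hf⟩ : ∃ f : A → FF M, f = fun a : A => eR φ θ (p a) := ⟨_, rfl⟩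
  rw [← hf]
  have hιi : Function.Injective ι := by
    intro s t h
    have h1 := congrArg p h
    rw [hι, hι] at h1
    exact Subtype.ext (SemidirectProduct.inr_injective h1)
  have hfι : ∀ s : φ.ker, f (ι s) = θ s := by
    intro s
    rw [hf]
    change eR φ θ (p (ι s)) = θ s
    rw [hι]
    unfold eR
    rw [if_pos (SemidirectProduct.left_inr _), SemidirectProduct.right_inr]
  -- elements outside of the image of `ι`
  have hrange : ∀ a : A, (p a).left = 1 → (p a).right ∈ φ.ker → a ∈ ι.range := by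
    intro a h1 h2
    refine ⟨⟨_, h2⟩, hp ?_⟩
    rw [hι]
    refine SemidirectProduct.ext ?_ ?_
    · rw [SemidirectProduct.left_inr, h1]
    · rw [SemidirectProduct.right_inr]
  have hfs : ∀ a, a ∉ ι.range → f a = 0 := by
    intro a ha
    rw [hf]
    change eR φ θ (p a) = 0
    unfold eR
    by_cases h1 : (p a).left = 1
    · rw [if_pos h1]
      exact hbx.supp _ fun h2 => ha (hrange a h1 h2)
    · rw [if_neg h1]
  -- the restriction of a function supported in the image of `ι`
  have hres : ∀ h : A → FF M, ∀ k : A → FF M, (∀ a, a ∉ ι.range → h a = 0) →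
      (fun s : φ.ker => mulF h k (ι s)) = mulF (fun s => h (ι s)) (fun s => k (ι s)) := by
    intro h k hh
    funext s
    rw [mulF_inj ι hιi k hh]
    unfold mulF
    refine finsum_congr fun t => ?_
    change h (ι t) * k (ι t⁻¹ * ι s) = h (ι t) * k (ι (t⁻¹ * s))
    rw [map_mul]
  have hsupp : ∀ h k : A → FF M, (∀ a, a ∉ ι.range → h a = 0) → (∀ a, a ∉ ι.range → k a = 0) →
      ∀ a, a ∉ ι.range → mulF h k a = 0 := fun h k => mulF_supp ι.range
  have hext : ∀ h k : A → FF M, (∀ a, a ∉ ι.range → h a = 0) → (∀ a, a ∉ ι.range → k a = 0) →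
      (∀ s, h (ι s) = k (ι s)) → h = k := by
    intro h k hh hk he
    funext a
    by_cases ha : a ∈ ι.range
    · obtain ⟨s, rfl⟩ := ha
      exact he s
    · rw [hh a ha, hk a ha]
  have hθ : (fun s : φ.ker => f (ι s)) = fun s : φ.ker => θ s := funext hfι
  have hfcl : IsCl f := by
    intro x y
    rw [hf]
    change eR φ θ (p (y * x * y⁻¹)) = eR φ θ (p x)
    rw [map_mul, map_mul, map_inv]
    exact hecl _ _
  have hfidem : IsIdem f := by
    refine ⟨hfcl, hext _ _ (hsupp f f hfs hfs) hfs fun s => ?_⟩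
    have h1 := congrFun (hres f f hfs) s
    rw [hθ, hbx.blk.1.2] at h1
    exact h1.trans (hfι s).symm
  have hf0 : f ≠ 0 := by
    intro h0
    apply hbx.blk.2.1
    funext s
    have h1 := hfι s
    rw [h0] at h1
    exact h1.symm
  refine ⟨hfidem, hf0, fun g hg => ?_⟩
  have hh : IsIdem (mulF f g) := H46.isIdem_mul hfidem hg
  obtain ⟨h, hhd⟩ : ∃ h : A → FF M, h = mulF f g := ⟨_, rfl⟩
  rw [← hhd] at hh ⊢
  have hfh : mulF f h = h := by
    rw [hhd, ← mulF_assoc, hfidem.2]
  -- the normal subgroup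
  have hPp : IsPGroup ℓ η.range := by
    rintro ⟨a, v, rfl⟩
    refine ⟨1, Subtype.ext ?_⟩
    change (η v) ^ ℓ ^ 1 = 1
    rw [pow_one, ← map_pow, hex, map_one]
  have hnorm : (⊤ : Subgroup A) ≤ Subgroup.normalizer (η.range : Set A) := by
    have hN : η.range.Normal := by
      refine ⟨?_⟩
      rintro _ ⟨v, rfl⟩ a
      refine ⟨φ (p a).right v, hp ?_⟩
      rw [hη, map_mul, map_mul, map_inv, hη]
      refine SemidirectProduct.ext ?_ ?_
      · rw [sd_conj_left φ _ _ (by rw [SemidirectProduct.right_inl, map_one]),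
          SemidirectProduct.left_inl, SemidirectProduct.left_inl]
      · rw [sd_conj_right, SemidirectProduct.right_inl, SemidirectProduct.right_inl, mul_one,
          mul_inv_cancel]
    rw [Subgroup.normalizer_eq_top]
  have hix : Ix (⊤ : Subgroup A) h := by
    refine ⟨fun x hx => absurd (Subgroup.mem_top x) hx, ?_, ?_⟩
    · intro x y
      exact hh.1 x y
    · rw [← H75.mulF_res (⊤ : Subgroup A) h (fun x hx => absurd (Subgroup.mem_top x) hx), hh.2]
  have hbr : br η.range h = h := T2.H32.supp_cent hF hPp le_top le_top hnorm hix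
  -- the support of `h`
  have hhs : ∀ a, a ∉ ι.range → h a = 0 := by
    intro a ha
    by_contra hha
    have haC : a ∈ Subgroup.centralizer (η.range : Set A) := by
      by_contra hc
      apply hha
      rw [← hbr]
      exact br_out h hc
    have hker : φ (p a).right = 1 := by
      ext v
      have h1 := Subgroup.mem_centralizer_iff.1 haC (η v) ⟨v, rfl⟩
      have h2 := congrArg p h1
      rw [map_mul, map_mul, hη] at h2
      have h3 := congrArg SemidirectProduct.left h2
      rw [SemidirectProduct.mul_left, SemidirectProduct.mul_left, SemidirectProduct.left_inl,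
        SemidirectProduct.right_inl, map_one, MulAut.one_apply, mul_comm v] at h3
      rw [MulAut.one_apply]
      exact (mul_left_cancel h3).symm
    have hreg : Reg ℓ a := by
      by_contra hc
      exact hha (H47O.osi H63.sma H74.rgl ℓ (FF M) hF A h hh a hc)
    have hleft : (p a).left = 1 := by
      obtain ⟨h1, -⟩ := sd_pow φ (p a) hker (orderOf a)
      rw [← map_pow, pow_orderOf_eq_one, map_one, SemidirectProduct.one_left] at h1
      have h2 : orderOf (p a).left ∣ orderOf a := orderOf_dvd_of_pow_eq_one h1.symm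
      have h3 : orderOf (p a).left ∣ ℓ := orderOf_dvd_of_pow_eq_one (hex _)
      have h4 : orderOf (p a).left ∣ 1 := by
        have h5 : (orderOf a).Coprime ℓ := hreg
        rw [← Nat.Coprime.gcd_eq_one h5]
        exact Nat.dvd_gcd h2 h3
      exact orderOf_eq_one_iff.1 (Nat.dvd_one.1 h4)
    exact ha (hrange a hleft (MonoidHom.mem_ker.2 hker))
  -- the restriction of `h`
  have hh' : IsIdem (fun s : φ.ker => h (ι s)) := by
    refine ⟨fun x y => ?_, ?_⟩
    · change h (ι (y * x * y⁻¹)) = h (ι x)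
      rw [map_mul, map_mul, map_inv]
      exact hh.1 _ _
    · rw [← hres h h hhs, hh.2]
  have hfh' : mulF (fun s : φ.ker => θ s) (fun s : φ.ker => h (ι s)) =
      fun s : φ.ker => h (ι s) := by
    have h1 := hres f h hfs
    rw [hfh, hθ] at h1
    exact h1.symm
  rcases hbx.blk.2.2 _ hh' with h1 | h1
  · left
    rw [hfh'] at h1
    refine hext _ _ hhs hfs fun s => ?_
    rw [hfι]
    exact congrFun h1 s
  · right
    rw [hfh'] at h1
    refine hext _ _ hhs (fun _ _ => rfl) fun s => ?_
    exact congrFun h1 s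

theorem bre : BreStmt := by
  intro ℓ hℓ M _ hM V₀ S _ _ _ _ φ θ κ d hq hth
  have hfin : Finite (V₀ ⋊[φ] S) := Finite.of_equiv _ SemidirectProduct.equivProd.symm
  refine ⟨eR_cl φ hth.bx.supp hth.cl, ?_, ?_⟩
  · exact bre_gen hM φ θ hq.ex hth.bx hth.cl (MonoidHom.id _) Function.injective_id
      (SemidirectProduct.inr.comp φ.ker.subtype) (fun s => rfl) SemidirectProduct.inl (fun v => rfl)
  · intro S₁ hS₁
    have h1 : ∀ s : φ.ker, (SemidirectProduct.inr (s : S) : V₀ ⋊[φ] S) ∈ RS φ S₁ := fun s =>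
      hS₁ s.2
    have h2 : ∀ v : V₀, (SemidirectProduct.inl v : V₀ ⋊[φ] S) ∈ RS φ S₁ := by
      intro v
      unfold RS
      rw [Subgroup.mem_comap, SemidirectProduct.rightHom_inl]
      exact S₁.one_mem
    exact bre_gen hM φ θ hq.ex hth.bx hth.cl (RS φ S₁).subtype (Subgroup.subtype_injective _)
      ((SemidirectProduct.inr.comp φ.ker.subtype).codRestrict (RS φ S₁) h1) (fun s => rfl)
      (SemidirectProduct.inl.codRestrict (RS φ S₁) h2) (fun v => rfl)

end Pool.Agent.PP.SE.H13
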