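import Pool.Agent.ASE.Stmts7
import Pool.Agent.Helper13_ASO.KCM

/-!
# Squad ASE, row CME (helper13): comparison of two data
-/

set_option autoImplicit false

open scoped BigOperators

noncomputable section

namespace Pool.Agent.PP.SE.H13

open Pool.Agent.Helper51_AWC Pool.Agent.Helper79_WRA Pool.Agent.PP Pool.Agent.PP.KF
open Pool.Agent.PP.K9 Pool.Agent.PP.K9.H97 Pool.Agent.PP.H75 Pool.Agent.PP.T3 Pool.Agent.PP.SO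
open Pool.Agent.PP.SD

attribute [local instance] Ideal.Quotient.field

/-- the inverse of a number prime to `ℓ` -/
theorem cme_inv {ℓ : ℕ} [hℓ : Fact ℓ.Prime] {x : ℕ} (hx0 : 0 < x) (hx : x < ℓ) :
    ((x : ℚ))⁻¹ ∈ SOR.Rl ℓ := by
  change ¬ ℓ ∣ ((x : ℚ)⁻¹).den
  rw [Rat.inv_natCast_den_of_pos hx0]
  exact Nat.not_dvd_of_pos_of_lt hx0 hx

/-- CME -/
theorem cme (Cpx : CpxStmt) (Hex : HexStmt) (Mqc : MqcStmt) (Mqa : MqaStmt) (Mqb : MqbStmt)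
    (Hmx : HmxStmt) (Kre : KreStmt) : CmeStmt := by
  classical
  intro ℓ hℓ M _ hM h5 V₀ G _ _ _ _ E₀ hFq B hB D hD r hr hPE
  obtain ⟨K, hK2, hK⟩ := Cpx ℓ M hM (by omega) V₀ G E₀ hFq B hB D hD r hr hPE
  refine ⟨K, ?_⟩
  intro G' _ _ B' D' hB' hD' hPE' hU hfx
  obtain ⟨d₁, n₁, z₁, y₁, h1⟩ := Hex ℓ M hM (by omega) V₀ G E₀ hFq B hB D hD
  obtain ⟨d₂, n₂, z₂, y₂, h2⟩ := Hex ℓ M hM (by omega) V₀ G' E₀ hFq B' hB' D' hD'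
  have hℓ0 : (ℓ : ℚ) ≠ 0 := by
    have := hℓ.out.pos
    positivity
  have hmq : ∀ ρ₁ ρ₂ : V₀ → ZMod ℓ, Hm ρ₁ → Hm ρ₂ → ∀ v₀ c d : V₀, c ≠ 1 → d ≠ 1 →
      MQ ℓ E₀ D.U d₁ n₁ z₁ y₁ (lf ρ₁ v₀) (lf ρ₂ 1) c d -
        MQ ℓ E₀ D'.U d₂ n₂ z₂ y₂ (lf ρ₁ v₀) (lf ρ₂ 1) c d ∈ SOR.Rl ℓ := by
    intro ρ₁ ρ₂ hρ₁ hρ₂ v₀ c d hc hd
    have h3 := hK G' B' D' hB' hD' hPE' hU hfx ρ₁ ρ₂ hρ₁ hρ₂ v₀ c d hc hd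
    rw [Mqc ℓ M V₀ G E₀ hFq B D d₁ n₁ z₁ y₁ h1 _ _ c d hc hd,
      Mqc ℓ M V₀ G' E₀ hFq B' D' d₂ n₂ z₂ y₂ h2 _ _ c d hc hd] at h3
    refine SO.H13.kcm_rat hM ?_
    rw [Rat.cast_sub]
    exact h3
  have hU2 : ∀ W : Subgroup V₀, W ≠ ⊥ → ∃ q ∈ SOR.Rl ℓ, D.U W - D'.U W = ℓ ^ 2 * q := by
    intro W hW
    obtain ⟨q, hq, e⟩ := hU W hW
    refine ⟨(ℓ : ℚ) ^ (K - 2) * q, (SOR.Rl ℓ).mul_mem ((SOR.Rl ℓ).pow_mem (natCast_mem _ _) _) hq,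
      ?_⟩
    rw [e, ← mul_assoc, ← pow_add]
    congr 2
    omega
  refine Kre ℓ (by omega) V₀ E₀ hFq (fun c => d₁ c - d₂ c) (fun c d => n₁ c d - n₂ c d)
    (fun a => z₁ a 1 - z₂ a 1) (fun a κ d => y₁ a κ d - y₂ a κ d) _
    ⟨fun c => sub_mem (h1.dr c) (h2.dr c), fun c d hc hd => sub_mem (h1.nr c d hc hd)
      (h2.nr c d hc hd), fun c j hj => ?_, fun σ hσ c => ?_, fun a ha => ?_, fun a ha σ hσ => ?_,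
      fun a ha κ hκ d hd => ?_, fun c d hc hd => ?_, fun hDD ρ₁ ρ₂ hρ₁ hρ₂ c d hc hd => ?_,
      fun c d hc hd => ?_, fun a ha κ hκ d hd => ?_, ?_⟩
  · show d₁ (c ^ j) - d₂ (c ^ j) = d₁ c - d₂ c
    rw [h1.dp c j hj, h2.dp c j hj]
  · show d₁ (σ c) - d₂ (σ c) = d₁ c - d₂ c
    rw [h1.de σ hσ c, h2.de σ hσ c]
  · obtain ⟨q, hq, e⟩ := h1.zr a ha 1 a.one_mem
    obtain ⟨q', hq', e'⟩ := h2.zr a ha 1 a.one_mem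
    refine ⟨q - q', sub_mem hq hq', ?_⟩
    show z₁ a 1 - z₂ a 1 = _
    rw [e, e', mul_sub]
  · show z₁ (mp σ a) 1 - z₂ (mp σ a) 1 = z₁ a 1 - z₂ a 1
    rw [h1.ze a ha σ hσ, h2.ze a ha σ hσ]
  · obtain ⟨q, hq, e⟩ := h1.yr a ha κ hκ d hd
    obtain ⟨q', hq', e'⟩ := h2.yr a ha κ hκ d hd
    refine ⟨q - q', sub_mem hq hq', ?_⟩
    show y₁ a κ d - y₂ a κ d = _
    rw [e, e', mul_sub]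
  · -- n1
    obtain ⟨ρ₁, hρ₁, hc1⟩ := (Hmx ℓ).1 V₀ hFq.ex c hc
    obtain ⟨ρ₂, hρ₂, hd1⟩ := (Hmx ℓ).1 V₀ hFq.ex d hd
    have inv0 : ∀ ρ : V₀ → ZMod ℓ, Hm ρ → ∀ v, ρ v ≠ 0 → ρ v⁻¹ ≠ 0 := by
      intro ρ hρ v hv h0
      have e1 := hρ 1 1
      rw [mul_one] at e1
      have e2 := hρ v v⁻¹
      rw [mul_inv_cancel, h0, add_zero] at e2
      apply hv
      rw [← e2]
      linear_combination -e1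
    have hc2 := inv0 ρ₁ hρ₁ c hc1
    have hd2 := inv0 ρ₂ hρ₂ d hd1
    have a1 := hmq ρ₁ ρ₂ hρ₁ hρ₂ c⁻¹ c d hc hd
    have a2 := hmq ρ₁ ρ₂ hρ₁ hρ₂ 1 c d hc hd
    have a3 := Mqa ℓ M V₀ G E₀ hFq B D hD d₁ n₁ z₁ y₁ h1 ρ₁ ρ₂ hρ₁ hρ₂ c d hc hd hc2
    have a4 := Mqa ℓ M V₀ G' E₀ hFq B' D' hD' d₂ n₂ z₂ y₂ h2 ρ₁ ρ₂ hρ₁ hρ₂ c d hc hd hc2
    have a5 : ((lf ρ₂ 1 d⁻¹ : ℤ) : ℚ) / ℓ * (n₁ c d - n₂ c d) ∈ SOR.Rl ℓ := by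
      have a6 := sub_mem (sub_mem a1 a2) (sub_mem a3 a4)
      have a7 : ((lf ρ₂ 1 d⁻¹ : ℤ) : ℚ) / ℓ * (n₁ c d - n₂ c d) =
          MQ ℓ E₀ D.U d₁ n₁ z₁ y₁ (lf ρ₁ c⁻¹) (lf ρ₂ 1) c d -
            MQ ℓ E₀ D'.U d₂ n₂ z₂ y₂ (lf ρ₁ c⁻¹) (lf ρ₂ 1) c d -
          (MQ ℓ E₀ D.U d₁ n₁ z₁ y₁ (lf ρ₁ 1) (lf ρ₂ 1) c d -
            MQ ℓ E₀ D'.U d₂ n₂ z₂ y₂ (lf ρ₁ 1) (lf ρ₂ 1) c d) -
          (MQ ℓ E₀ D.U d₁ n₁ z₁ y₁ (lf ρ₁ c⁻¹) (lf ρ₂ 1) c d -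
            MQ ℓ E₀ D.U d₁ n₁ z₁ y₁ (lf ρ₁ 1) (lf ρ₂ 1) c d -
              ((lf ρ₂ 1 d⁻¹ : ℤ) : ℚ) / ℓ * n₁ c d -
            (MQ ℓ E₀ D'.U d₂ n₂ z₂ y₂ (lf ρ₁ c⁻¹) (lf ρ₂ 1) c d -
              MQ ℓ E₀ D'.U d₂ n₂ z₂ y₂ (lf ρ₁ 1) (lf ρ₂ 1) c d -
              ((lf ρ₂ 1 d⁻¹ : ℤ) : ℚ) / ℓ * n₂ c d)) := by
        ring
      rw [a7]
      exact a6
    have hlf : lf ρ₂ 1 d⁻¹ = ((ρ₂ d⁻¹).val : ℤ) := by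
      unfold lf
      rw [if_neg (fun h => hd (inv_eq_one.1 h.1)), add_zero]
    rw [hlf] at a5
    have hv0 : 0 < (ρ₂ d⁻¹).val := Nat.pos_of_ne_zero (fun h => hd2 ((ZMod.val_eq_zero _).1 h))
    have hv1 : (ρ₂ d⁻¹).val < ℓ := ZMod.val_lt _
    have a8 := (SOR.Rl ℓ).mul_mem (cme_inv hv0 hv1) a5
    refine ⟨_, a8, ?_⟩
    show n₁ c d - n₂ c d = _
    have hv2 : (((ρ₂ d⁻¹).val : ℕ) : ℚ) ≠ 0 := by exact_mod_cast hv0.ne'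
    push_cast
    field_simp
  · -- n2
    have inv1 : ∀ ρ : V₀ → ZMod ℓ, Hm ρ → Hm (fun v : V₀ => ρ v⁻¹) := by
      intro ρ hρ v w
      show ρ (v * w)⁻¹ = ρ v⁻¹ + ρ w⁻¹
      rw [mul_inv, hρ]
    exact Mqb ℓ M V₀ G G' E₀ hFq B D B' D' hD hD' hU2 d₁ d₂ n₁ n₂ z₁ z₂ y₁ y₂ h1 h2 hDD
      ρ₁ ρ₂ hρ₁ hρ₂ c d hc hd
      (hmq (fun v => ρ₁ v⁻¹) (fun v => ρ₂ v⁻¹) (inv1 ρ₁ hρ₁) (inv1 ρ₂ hρ₂) 1 c d hc hd)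
  · -- sf
    obtain ⟨q, hq, e⟩ := h1.sf c d hc hd
    obtain ⟨q', hq', e'⟩ := h2.sf c d hc hd
    refine ⟨q - q', sub_mem hq hq', ?_⟩
    simp only [Finset.sum_sub_distrib]
    push_cast
    linear_combination e - e'
  · -- sy
    obtain ⟨q, hq, e⟩ := h1.sy a ha κ hκ d hd
    obtain ⟨q', hq', e'⟩ := h2.sy a ha κ hκ d hd
    refine ⟨q - q', sub_mem hq hq', ?_⟩
    simp only [Finset.sum_sub_distrib]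
    linear_combination e - e'
  · -- hh
    obtain ⟨q, hq, e⟩ := h1.hh
    obtain ⟨q', hq', e'⟩ := h2.hh
    refine ⟨q - q', sub_mem hq hq', ?_⟩
    rw [finsum_mem_sub_distrib _ _ (Set.toFinite _)]
    push_cast
    linear_combination e - e'

end Pool.Agent.PP.SE.H13
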