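import Pool.Agent.ASE.Stmts5

/-!
# Squad ASE, row FWD (helper13): the values of `FWS`
-/

set_option autoImplicit false

open scoped BigOperators

noncomputable section

namespace Pool.Agent.PP.SE.H13

open Pool.Agent.Helper51_AWC Pool.Agent.Helper79_WRA Pool.Agent.PP Pool.Agent.PP.KF
open Pool.Agent.PP.K9 Pool.Agent.PP.K9.H97 Pool.Agent.PP.H75 Pool.Agent.PP.T3 Pool.Agent.PP.SO
open Pool.Agent.PP.SD

attribute [local instance] Ideal.Quotient.field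

theorem fsum_mem {α : Type} [Fintype α] (P : α → Prop) [DecidablePred P] (f : α → ℂ) :
    ∑ᶠ x ∈ {x : α | P x}, f x = ∑ x, if P x then f x else 0 := by
  classical
  rw [finsum_eq_sum_of_fintype]
  refine Finset.sum_congr rfl fun x _ => ?_
  rw [finsum_eq_if]
  rfl

/-- `τ⁻¹ ζ ζ⁻¹` determines `ζ ∈ a` if `τ` does not fix `a` pointwise. -/
theorem zeta_inj {ℓ : ℕ} [hℓ : Fact ℓ.Prime] {V₀ : Type} [CommGroup V₀] [Finite V₀]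
    {E₀ : Subgroup (MulAut V₀)} {τ : MulAut V₀} {a : Subgroup V₀} (ha : Nat.card a = ℓ)
    (hτ : τ ∈ E₀) (hτa : τ ∉ St E₀ a) {ζ ζ' : V₀} (hζ : ζ ∈ a) (hζ' : ζ' ∈ a)
    (h : τ⁻¹ ζ * ζ⁻¹ = τ⁻¹ ζ' * ζ'⁻¹) : ζ = ζ' := by
  by_contra hne
  have h1 : τ⁻¹ (ζ * ζ'⁻¹) = ζ * ζ'⁻¹ := by
    rw [map_mul, map_inv]
    have h2 : τ⁻¹ ζ * (τ⁻¹ ζ')⁻¹ = (τ⁻¹ ζ * ζ⁻¹) * (τ⁻¹ ζ' * ζ'⁻¹)⁻¹ * (ζ * ζ'⁻¹) := by
      rw [mul_inv, inv_inv]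
      calc τ⁻¹ ζ * (τ⁻¹ ζ')⁻¹ = τ⁻¹ ζ * (τ⁻¹ ζ')⁻¹ * (ζ⁻¹ * ζ) * (ζ' * ζ'⁻¹) := by
            rw [inv_mul_cancel, mul_inv_cancel, mul_one, mul_one]
        _ = τ⁻¹ ζ * ζ⁻¹ * ((τ⁻¹ ζ')⁻¹ * ζ') * (ζ * ζ'⁻¹) := by
            simp only [mul_assoc, mul_left_comm, mul_comm]
    rw [h2, h, mul_inv_cancel, one_mul]
  have h3 : ζ * ζ'⁻¹ ≠ 1 := fun h4 => hne (mul_inv_eq_one.1 h4)
  have h4 : ζ * ζ'⁻¹ ∈ a := a.mul_mem hζ (a.inv_mem hζ')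
  obtain ⟨ξ, hξ⟩ : ∃ ξ : V₀, ξ = ζ * ζ'⁻¹ := ⟨_, rfl⟩
  rw [← hξ] at h1 h3 h4
  have h5 : τ ξ = ξ := by
    have h6 := congrArg τ h1
    rw [← MulAut.mul_apply, mul_inv_cancel, MulAut.one_apply] at h6
    exact h6.symm
  refine hτa ⟨hτ, fun w hw => ?_⟩
  -- `a` is generated by `ξ`
  have h6 : Subgroup.zpowers (⟨ξ, h4⟩ : a) = ⊤ :=
    zpowers_eq_top_of_prime_card ha (fun h7 => h3 (congrArg Subtype.val h7))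
  have h7 : (⟨w, hw⟩ : a) ∈ Subgroup.zpowers (⟨ξ, h4⟩ : a) := by
    rw [h6]
    exact Subgroup.mem_top _
  obtain ⟨k, hk⟩ := Subgroup.mem_zpowers_iff.1 h7
  have h8 : ξ ^ k = w := congrArg Subtype.val hk
  rw [← h8, map_zpow, h5]

theorem fwd (fwa : FwaStmt) (fwb : FwbStmt) (brv : BrvStmt) (wta : WtaStmt) (fva : FvaStmt) :
    FwdStmt := by
  intro ℓ hℓ M _ hM h2 V₀ G _ _ _ _ E₀ hq B hB D hD n m hpe ρ₁ ρ₂ x₁ x₂ hρ₁ hρ₂ hx₁ hx₂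
    F₁₃ Ψ M₁ M₂ K hFE kc kd a ha κ hκ σ hσ
  classical
  have hfa : Finite (MulAut V₀) :=
    Finite.of_injective (fun σ : MulAut V₀ => (σ : V₀ → V₀)) DFunLike.coe_injective
  have := Fintype.ofFinite V₀
  have := Fintype.ofFinite (MulAut V₀)
  have hn0 : 0 < n := by
    obtain ⟨r, -, rfl⟩ := hpe.pw
    exact pow_pos hℓ.out.pos r
  have hρ₁1 : ρ₁ 1 = 0 := by
    have h := hρ₁ 1 1
    rw [mul_one] at h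
    exact left_eq_add.1 h
  have hx₁1 : x₁ 1 = 0 := (hx₁ 1).2 hρ₁1
  have hρ₂1 : ρ₂ 1 = 0 := by
    have h := hρ₂ 1 1
    rw [mul_one] at h
    exact left_eq_add.1 h
  obtain ⟨F, hF⟩ : ∃ F : Set (SO.SS n V₀) → ℚ, F = F12 ℓ x₁ x₂ Ψ M₁ M₂ K kc kd := ⟨_, rfl⟩
  obtain ⟨hfv1, hfv2, hfv3, -, -, -⟩ := fva ℓ V₀ hq.ex n ρ₁ ρ₂ hpe.pw hρ₁ hρ₂ x₁ x₂ hx₁ hx₂
    F₁₃ Ψ M₁ M₂ K hFE kc kd
  have hbr := fun (τ : MulAut V₀) (y : V₀) (hτ : τ ∈ E₀) => brv ℓ V₀ E₀ hq n ρ₁ ρ₂ hpe.pw hρ₁ hρ₂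
    x₁ x₂ hx₁ hx₂ F₁₃ Ψ M₁ M₂ K hFE kc kd σ τ a κ y ha.1 hσ hτ hκ
  obtain ⟨hw1, -, -⟩ := wta ℓ M hM h2 V₀ G E₀ hq B hB D hD a ha κ hκ
  have hfwa := fwa ℓ M hM h2 V₀ G E₀ hq B hB D hD n m hpe a ha κ hκ σ hσ F
  rw [← hF] at hfv1 hfv2 hfv3 hbr ⊢
  rw [hfwa]
  obtain ⟨Wt, hWt⟩ : ∃ Wt : MulAut V₀ → V₀ → ℂ, ∀ τ y, Wt τ y = wtE ℓ E₀ B D a κ τ y :=
    ⟨_, fun _ _ => rfl⟩
  obtain ⟨h, hh⟩ : ∃ h : ℂ, h = ((x₁ kc⁻¹ * x₂ kd⁻¹ - x₁ κ⁻¹ * x₂ (σ⁻¹ κ)⁻¹ : ℤ) : ℂ) /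
    (ℓ : ℂ) ^ 2 := ⟨_, rfl⟩
  obtain ⟨bf, hbf⟩ : ∃ bf : V₀ → ℂ, ∀ ζ, bf ζ = ((BrF ℓ x₁ x₂ kc kd κ σ ζ : ℚ) : ℂ) :=
    ⟨_, fun _ => rfl⟩
  -- the first part
  have hP1 : ∑ᶠ w ∈ {w : MulAut V₀ × V₀ | w.1 ∈ E₀}, wtE ℓ E₀ B D a κ w.1 w.2 *
      ((Br F κ (TA σ a κ w.1 w.2) : ℚ) : ℂ) =
      ∑ᶠ ζ ∈ {ζ : V₀ | ζ ∈ a ∧ ζ ≠ 1}, LW ℓ E₀ B D a κ ζ * bf ζ - h * SE1 B D a κ := by
    rw [← hw1, fsum_mem, fsum_mem, fsum_mem, Fintype.sum_prod_type, Fintype.sum_prod_type]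
    have hLW : ∀ ζ, LW ℓ E₀ B D a κ ζ = ∑ τ, if τ ∈ E₀ ∧ τ ∉ St E₀ a then
        Wt τ (τ⁻¹ ζ * ζ⁻¹) else 0 := by
      intro ζ
      unfold LW
      rw [fsum_mem]
      refine Finset.sum_congr rfl fun τ _ => ?_
      rw [hWt]
    have hR : ∑ ζ : V₀, (if ζ ∈ a ∧ ζ ≠ 1 then LW ℓ E₀ B D a κ ζ * bf ζ else 0) =
        ∑ τ, ∑ ζ : V₀, if τ ∈ E₀ ∧ τ ∉ St E₀ a then
          (if ζ ∈ a ∧ ζ ≠ 1 then Wt τ (τ⁻¹ ζ * ζ⁻¹) * bf ζ else 0) else 0 := by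
      rw [Finset.sum_comm]
      refine Finset.sum_congr rfl fun ζ _ => ?_
      by_cases hζ : ζ ∈ a ∧ ζ ≠ 1
      · simp only [if_pos hζ]
        rw [hLW, Finset.sum_mul]
        refine Finset.sum_congr rfl fun τ _ => ?_
        by_cases hτ : τ ∈ E₀ ∧ τ ∉ St E₀ a
        · rw [if_pos hτ, if_pos hτ]
        · rw [if_neg hτ, if_neg hτ, zero_mul]
      · simp only [if_neg hζ, ite_self]
        rw [Finset.sum_const_zero]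
    rw [hR, Finset.mul_sum, ← Finset.sum_sub_distrib]
    refine Finset.sum_congr rfl fun τ _ => ?_
    rw [Finset.mul_sum, ← Finset.sum_sub_distrib]
    by_cases hτ : τ ∈ E₀
    · by_cases hτa : τ ∈ St E₀ a
      · refine Finset.sum_congr rfl fun y _ => ?_
        rw [if_pos hτ, if_neg (fun h' => h'.2 hτa), if_pos hτa, (hbr τ y hτ).1 hτa, hh]
        push_cast
        ring
      · have hτ2 : τ ∈ E₀ ∧ τ ∉ St E₀ a := ⟨hτ, hτa⟩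
        simp only [if_pos hτ, if_pos hτ2, if_neg hτa, mul_zero, sub_zero]
        -- the values of the alternating sum
        have hv : ∀ y : V₀, ((Br F κ (TA σ a κ τ y) : ℚ) : ℂ) =
            ∑ ζ : V₀, if ζ ∈ a ∧ ζ ≠ 1 then (if y = τ⁻¹ ζ * ζ⁻¹ then bf ζ else 0) else 0 := by
          intro y
          by_cases hy : ∃ ζ ∈ a, ζ ≠ 1 ∧ y = τ⁻¹ ζ * ζ⁻¹
          · obtain ⟨ζ, hζ, hζ1, hyζ⟩ := hy
            rw [(hbr τ y hτ).2.1 hτa ζ hζ hζ1 hyζ, Finset.sum_eq_single ζ]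
            · rw [if_pos ⟨hζ, hζ1⟩, if_pos hyζ, hbf]
            · intro ζ' _ hne
              by_cases hζ' : ζ' ∈ a ∧ ζ' ≠ 1
              · rw [if_pos hζ', if_neg]
                intro hy'
                exact hne (zeta_inj ha.1 hτ hτa hζ'.1 hζ (hy'.symm.trans hyζ))
              · rw [if_neg hζ']
            · intro h'
              exact absurd (Finset.mem_univ _) h'
          · push Not at hy
            rw [(hbr τ y hτ).2.2 hτa hy, Rat.cast_zero]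
            symm
            refine Finset.sum_eq_zero fun ζ _ => ?_
            by_cases hζ : ζ ∈ a ∧ ζ ≠ 1
            · rw [if_pos hζ, if_neg (hy ζ hζ.1 hζ.2)]
            · rw [if_neg hζ]
        have e1 : ∑ y : V₀, wtE ℓ E₀ B D a κ τ y * ((Br F κ (TA σ a κ τ y) : ℚ) : ℂ) =
            ∑ y : V₀, ∑ ζ : V₀, Wt τ y * (if ζ ∈ a ∧ ζ ≠ 1 then
              (if y = τ⁻¹ ζ * ζ⁻¹ then bf ζ else 0) else 0) := by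
          refine Finset.sum_congr rfl fun y _ => ?_
          rw [hv, Finset.mul_sum, ← hWt]
        rw [e1, Finset.sum_comm]
        refine Finset.sum_congr rfl fun ζ _ => ?_
        by_cases hζ : ζ ∈ a ∧ ζ ≠ 1
        · simp only [if_pos hζ]
          rw [Finset.sum_eq_single (τ⁻¹ ζ * ζ⁻¹)]
          · rw [if_pos rfl]
          · intro y _ hne
            rw [if_neg hne, mul_zero]
          · intro h'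
            exact absurd (Finset.mem_univ _) h'
        · simp only [if_neg hζ, mul_zero]
          rw [Finset.sum_const_zero]
    · refine Finset.sum_congr rfl fun y _ => ?_
      rw [if_neg hτ, if_neg (fun h' => hτ h'.1), if_neg (fun h' : τ ∈ St E₀ a => hτ h'.1), mul_zero,
        sub_zero]
  -- the second part
  have hfb := fwb ℓ M hM h2 V₀ G E₀ hq B hB D hD n m hn0 hpe a ha κ hκ σ hσ F
    ((x₁ kc⁻¹ * x₂ kd⁻¹ : ℤ) / (ℓ : ℚ) ^ 2)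
    ((x₁ kc⁻¹ * x₂ kd⁻¹ - x₁ κ⁻¹ * x₂ (σ⁻¹ κ)⁻¹ : ℤ) / (ℓ : ℚ) ^ 2)
    (fun τ hτ hs => hfv2 τ hτ fun s hs' => by
      rw [(hs s hs').1, (hs s hs').2]
      exact ⟨hρ₁1, hρ₂1⟩)
    (fun I hI => hfv3 κ⁻¹ (σ⁻¹ κ)⁻¹ I hI)
  have hP2 : ∑ᶠ L ∈ {L : Set (SO.SS n V₀) | pL L = a ∧ (∀ s ∈ L, σ s.2.2.2 = s.2.2.1) ∧
      ∀ s ∈ L, κ ^ (s.2.1 : ℕ) * s.2.2.1 = 1}, ((mob F L : ℚ) : ℂ) * HX B m a (tk B κ (D.et a)) L =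
      -(((x₁ κ⁻¹ * x₂ (σ⁻¹ κ)⁻¹ : ℤ) : ℂ) / (ℓ : ℂ) ^ 2) * LL B (etl B D a κ ⊥) := by
    by_cases hκ1 : κ = 1
    · rw [hfb.1 hκ1, hκ1, inv_one, hx₁1, zero_mul, Int.cast_zero, zero_div, neg_zero, zero_mul]
    · rw [hfb.2 hκ1]
      congr 1
      push_cast
      ring
  rw [hP1, hP2]
  simp only [hbf]
  rw [hh]
  ring

end Pool.Agent.PP.SE.H13
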