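import Pool.Agent.ASE.Stmts2b

/-!
# Squad ASE, row RFG (helper13): the element `et` vanishes at the elements which are not regular
-/

set_option autoImplicit false

open scoped BigOperators

noncomputable section

namespace Pool.Agent.PP.SE.H13

open Pool.Agent.Helper51_AWC Pool.Agent.Helper79_WRA Pool.Agent.PP Pool.Agent.PP.KF
open Pool.Agent.PP.K9 Pool.Agent.PP.K9.H97 Pool.Agent.PP.H75 Pool.Agent.PP.T3 Pool.Agent.PP.SO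
open Pool.Agent.PP.SD

attribute [local instance] Ideal.Quotient.field

/-- `i(w)`, `w ∈ W`, commutes with the elements of `C W` -/
theorem rfg_comm {V₀ G F : Type} [CommGroup V₀] [Group G] (B : Bk F V₀ G) {W : Subgroup V₀}
    {w : V₀} (hw : w ∈ W) {z : G} (hz : z ∈ B.C W) : B.i w * z = z * B.i w :=
  Subgroup.mem_centralizer_iff.1 hz (B.i w) (Subgroup.mem_map_of_mem _ hw)

/-- `i(w)` is in `C W` -/
theorem rfg_mem {V₀ G F : Type} [CommGroup V₀] [Group G] (B : Bk F V₀ G) (W : Subgroup V₀)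
    (w : V₀) : B.i w ∈ B.C W := by
  refine Subgroup.mem_centralizer_iff.2 ?_
  rintro _ ⟨v, -, rfl⟩
  change B.i v * B.i w = B.i w * B.i v
  rw [← map_mul, mul_comm, map_mul]

/-- RFG -/
theorem rfg (Snu : SnuStmt) (Val : ValStmt) (Vxg : VxgStmt) (Rfa : RfaStmt) (Vxm : VxmStmt)
    (Czb : CzbStmt) (Gea : GeaStmt) : RfgStmt := by
  classical
  intro ℓ hℓ M _ hM hℓ2 V₀ G _ _ _ _ E₀ hFq B hB W hW N e O hCy D hD g hg
  obtain ⟨hfin, -, -, hS3, hS4⟩ := Snu ℓ M hM hℓ2 V₀ G E₀ hFq B hB W hW N e O hCy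
  obtain ⟨⟨ψ, hψ, hψN⟩, -⟩ := Val ℓ M hM hℓ2 V₀ G E₀ hFq B hB W hW N e O hCy D hD
  obtain ⟨hRa, -⟩ := Rfa ℓ M hM hℓ2 V₀ G E₀ hFq B hB W hW N e O hCy D hD
  obtain ⟨-, -, -, -, -, -, hcz, -⟩ := Czb ℓ M hM hℓ2 V₀ G E₀ hFq B hB.toSb W
  obtain ⟨-, hpr, -⟩ := Gea ℓ V₀ E₀ hFq W hW
  have hVx := fun χ hχ => Vxm ℓ M hM hℓ2 V₀ G E₀ hFq B hB W hW χ hχ
  obtain ⟨n, hn⟩ : ∃ n : ℂ, n = (nS E₀ W : ℂ) := ⟨_, rfl⟩
  have hn0 : n ≠ 0 := by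
    rw [hn]
    exact_mod_cast (by have := hW.2; omega : nS E₀ W ≠ 0)
  obtain ⟨cW, hcW⟩ : ∃ c : ℂ, c = (Nat.card (B.C W) : ℂ) := ⟨_, rfl⟩
  have hcW0 : cW ≠ 0 := by
    rw [hcW]
    exact_mod_cast Nat.card_pos.ne'
  obtain ⟨cT, hcT⟩ : ∃ c : ℂ, c = (Nat.card (B.C ⊤) : ℂ) := ⟨_, rfl⟩
  have hcT0 : cT ≠ 0 := by
    rw [hcT]
    exact_mod_cast Nat.card_pos.ne'
  obtain ⟨a, ha⟩ : ∃ a : (G → ℂ) → ℂ, ∀ χ, a χ = n *
      ((e χ : ℂ) * cW * B.D ⊤ / (n * cT * χ 1) - D.U W) * (χ 1 / cW) := ⟨_, fun _ => rfl⟩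
  have hreg1 : Reg ℓ (1 : G) := by
    unfold Reg
    rw [orderOf_one]
    exact Nat.coprime_one_left _
  have ha2 : ∀ χ ∈ Ch B W, ∀ φ ∈ Ch B W, rq ℓ B W χ φ → a χ = a φ ∧ e χ = e φ := by
    intro χ hχ φ hφ hr
    have e1 := (hCy.se χ hχ φ hφ hr).1
    have e2 := hr 1 (one_mem _) hreg1
    rw [ha, ha, e1, e2]
    exact ⟨rfl, rfl⟩
  have hsg : ∀ χ ∈ Ch B W, (e χ : ℂ) * e χ = 1 := by
    intro χ hχ
    obtain ⟨-, ⟨-, -, -, ⟨ν, hν, hχν⟩, -⟩, -⟩ := hVx χ hχ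
    rcases (hCy.lv ν hν).sg χ hχν with h | h
    · rw [h]
      norm_num
    · rw [h]
      norm_num
  have het : D.et W g = ∑ᶠ χ ∈ {χ | χ ∈ Ch B W ∧ χ ∈ N}, a χ * χ g⁻¹ := by
    rw [hD.de]
    refine finsum_mem_congr rfl fun χ _ => ?_
    rw [ha, hn, hcW, hcT]
  have hSfin : {χ | χ ∈ Ch B W ∧ χ ∈ N}.Finite := hfin.subset fun χ h => h.1
  by_cases hgC : g ∈ B.C W
  swap
  · rw [het]
    refine finsum_mem_eq_zero_of_forall_eq_zero fun χ hχ => ?_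
    rw [hχ.1.1 g⁻¹ (fun h => hgC (by simpa using inv_mem h)), mul_zero]
  by_cases hcase : ∃ w ∈ W, Reg ℓ (B.i w * g)
  · obtain ⟨w, hw, hwg⟩ := hcase
    have hw1 : w ≠ 1 := by
      rintro rfl
      rw [map_one, one_mul] at hwg
      exact hg hwg
    obtain ⟨g', hg'⟩ : ∃ g' : G, g' = B.i w * g := ⟨_, rfl⟩
    have hg'C : g'⁻¹ ∈ B.C W := by
      rw [hg']
      exact inv_mem (mul_mem (rfg_mem B W w) hgC)
    have hg'r : Reg ℓ g'⁻¹ := by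
      unfold Reg
      rw [orderOf_inv, hg']
      exact hwg
    have hginv : g⁻¹ = B.i w * g'⁻¹ := by
      rw [rfg_comm B hw hg'C, hg']
      group
    have h1 := (hS3 (fun χ => a χ * χ g'⁻¹) (fun χ hχ φ hφ _ _ hr => by
      show a χ * χ g'⁻¹ = a φ * φ g'⁻¹
      rw [(ha2 χ hχ φ hφ hr).1, hr g'⁻¹ hg'C hg'r])).2 w hw
    rw [if_neg hw1] at h1
    rw [het, ← h1]
    refine finsum_mem_congr rfl fun χ hχ => ?_
    obtain ⟨-, ⟨-, -, -, -, h2, -⟩, -⟩ := hVx χ hχ.1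
    rw [hginv, h2 w hw]
    ring
  · push Not at hcase
    have hb : ∀ w ∈ W, ¬ Reg ℓ (B.i w * g⁻¹) := by
      intro w hw h
      refine hcase w⁻¹ (inv_mem hw) ?_
      have h2 : (B.i w * g⁻¹)⁻¹ = B.i w⁻¹ * g := by
        rw [mul_inv_rev, inv_inv, ← map_inv, rfg_comm B (inv_mem hw) hgC]
      unfold Reg at h ⊢
      rw [← h2, orderOf_inv]
      exact h
    obtain ⟨Θ, hΘ⟩ := Vxg ℓ M hM hℓ2 V₀ G E₀ hFq B hB W hW g⁻¹ (inv_mem hgC) hb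
    -- the sum over `Iv 1 ∩ N`
    have hone : (fun _ : V₀ => (1 : ℂ)) ∈ lk (kW E₀ W) :=
      ⟨⟨rfl, fun _ _ => (one_mul _).symm⟩, fun _ _ => rfl⟩
    obtain ⟨hcard, hTfin, -⟩ := hS4 _ hone
    have hz : ∑ᶠ χ ∈ {χ | χ ∈ Iv B W (fun _ => 1) ∧ χ ∈ N}, a χ * e χ = 0 := by
      have hxi := hCy.xi _ hone ψ hψ hψN 1 (one_mem _) hreg1
      have hU := hD.dU ψ hψ hψN
      rw [← hcW, ← hcT] at hU
      have hψ1 : ψ 1 ≠ 0 := (hcz ψ hψ).1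
      have h3 : ∀ χ ∈ {χ | χ ∈ Iv B W (fun _ => 1) ∧ χ ∈ N}, a χ * e χ =
          (B.D ⊤ : ℂ) / cT - n * D.U W / cW * ((e χ : ℂ) * χ 1) := by
        intro χ hχ
        have hχ1 : χ 1 ≠ 0 := (hcz χ hχ.1.1).1
        have h4 := hsg χ hχ.1.1
        rw [ha]
        have h5 : n * ((e χ : ℂ) * cW * B.D ⊤ / (n * cT * χ 1) - D.U W) * (χ 1 / cW) * e χ =
            (e χ * e χ) * (B.D ⊤ : ℂ) / cT - n * D.U W / cW * ((e χ : ℂ) * χ 1) := by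
          field_simp
        rw [h5, h4, one_mul]
      rw [finsum_mem_congr rfl h3, finsum_mem_sub_distrib _ _ hTfin, ← mul_finsum_mem, hxi, ← hU]
      have h6 : ∑ᶠ χ ∈ {χ | χ ∈ Iv B W (fun _ => 1) ∧ χ ∈ N}, (B.D ⊤ : ℂ) / cT =
          n * ((B.D ⊤ : ℂ) / cT) := by
        rw [finsum_mem_eq_finite_toFinset_sum _ hTfin, Finset.sum_const, nsmul_eq_mul,
          ← Set.ncard_eq_toFinset_card _ hTfin, hcard, hn]
      rw [h6]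
      have h7 := hsg ψ hψ
      have h8 : n * ((e ψ : ℂ) * cW * B.D ⊤ / (cT * ψ 1)) / cW * ((e ψ : ℂ) * ψ 1) =
          (e ψ * e ψ) * (n * ((B.D ⊤ : ℂ) / cT)) := by
        field_simp
      rw [h8, h7, one_mul, sub_self]
    have hvx : ∀ χ ∈ Ch B W, χ ∈ N → ∀ x, x ∉ W → vx B χ x = nu B χ (pr ℓ E₀ W x) * e χ := by
      intro χ hχ hχN x hx
      have h3 := hRa χ hχ x hx
      have hDT : (B.D ⊤ : ℂ) ≠ 0 := by
        intro h0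
        obtain ⟨-, -, h4⟩ := hVx χ hχ
        apply (h4 x hx).2.2.2
        unfold vx
        rw [h0, div_zero]
      unfold vx
      rw [← h3, mul_div_cancel_left₀ _ hDT, hD.dD χ hχ x, if_pos hχN]
    have h4 : ∀ χ ∈ {χ | χ ∈ Ch B W ∧ χ ∈ N}, a χ * χ g⁻¹ =
        ∑ᶠ x ∈ {x : V₀ | x ∉ W}, Θ x * (nu B χ (pr ℓ E₀ W x) * (a χ * e χ)) := by
      intro χ hχ
      rw [hΘ χ hχ.1, mul_finsum_mem]
      refine finsum_mem_congr rfl fun x hx => ?_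
      rw [hvx χ hχ.1 hχ.2 x hx]
      ring
    rw [het, finsum_mem_congr rfl h4, finsum_mem_comm _ hSfin (Set.toFinite _)]
    refine finsum_mem_eq_zero_of_forall_eq_zero fun x _ => ?_
    have h5 := (hS3 (fun χ => a χ * e χ) (fun χ hχ φ hφ _ _ hr => by
      show a χ * (e χ : ℂ) = a φ * e φ
      rw [(ha2 χ hχ φ hφ hr).1, (ha2 χ hχ φ hφ hr).2])).2 (pr ℓ E₀ W x) (hpr x).1
    rw [← mul_finsum_mem, h5, hz]
    simp

end Pool.Agent.PP.SE.H13
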