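import Pool.Agent.ASE.Stmts5
import Pool.Agent.ASO.Stmts5
import Pool.Agent.Helper65_ASO.WZE

/-!
# Squad ASE, row WTA (helper13): the sum of the weights with `τ ∈ St E₀ a`
-/

set_option autoImplicit false

open scoped BigOperators

noncomputable section

namespace Pool.Agent.PP.SE.H13

open Pool.Agent.Helper51_AWC Pool.Agent.Helper79_WRA Pool.Agent.PP Pool.Agent.PP.KF
open Pool.Agent.PP.K9 Pool.Agent.PP.K9.H97 Pool.Agent.PP.H75 Pool.Agent.PP.T3 Pool.Agent.PP.SO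
open Pool.Agent.PP.SD

attribute [local instance] Ideal.Quotient.field

/-- the number of the pairs in a subgroup with a given commutator, weighted -/
theorem frob_sub {G : Type} [Group G] [Finite G] (C : Subgroup G) (a : G → ℂ)
    (ha : ∀ g, g ∉ C → a g = 0) (S : Set (G → ℂ))
    (hS : ∀ ψ ∈ S, (∀ g, g ∉ C → ψ g = 0) ∧ (fun t : C => ψ t) ∈ Irr C)
    (hz : ∀ ψ : G → ℂ, (∀ g, g ∉ C → ψ g = 0) → (fun t : C => ψ t) ∈ Irr C → ψ ∉ S →
      cv a ψ = 0) :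
    (Nat.card C : ℂ)⁻¹ * ∑ᶠ g : G, a g * {w : G × G | SO.kap w.1 w.2 = g ∧
      (w.1 ∈ C ∧ w.2 ∈ C)}.ncard = ∑ᶠ χ ∈ S, cv a χ := by
  classical
  have := Fintype.ofFinite G
  have := Fintype.ofFinite C
  have hIf : (Irr C).Finite := irr_finite'
  have := hIf.fintype
  have hC0 : (Nat.card C : ℂ) ≠ 0 := by exact_mod_cast Nat.card_pos.ne'
  -- the number of the pairs
  have hcard : ∀ g : C, {w : G × G | SO.kap w.1 w.2 = (g : G) ∧ (w.1 ∈ C ∧ w.2 ∈ C)}.ncard =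
      {w : C × C | SO.kap w.1 w.2 = g}.ncard := by
    intro g
    have h1 : {w : G × G | SO.kap w.1 w.2 = (g : G) ∧ (w.1 ∈ C ∧ w.2 ∈ C)} =
        (fun w : C × C => ((w.1 : G), (w.2 : G))) '' {w : C × C | SO.kap w.1 w.2 = g} := by
      ext ⟨x, y⟩
      constructor
      · rintro ⟨h1, h2, h3⟩
        exact ⟨(⟨x, h2⟩, ⟨y, h3⟩), Subtype.ext h1, rfl⟩
      · rintro ⟨⟨x', y'⟩, h1, h2⟩
        obtain ⟨rfl, rfl⟩ := Prod.mk.inj h2
        exact ⟨congrArg Subtype.val h1, x'.2, y'.2⟩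
    rw [h1, Set.ncard_image_of_injective]
    rintro ⟨x, y⟩ ⟨x', y'⟩ h
    obtain ⟨h2, h3⟩ := Prod.mk.inj h
    exact Prod.ext (Subtype.ext h2) (Subtype.ext h3)
  rw [H75.sum_sub C _ (fun g hg => by rw [ha g hg, zero_mul]), finsum_eq_sum_of_fintype]
  have h1 : ∀ g : C, a g * ({w : G × G | SO.kap w.1 w.2 = (g : G) ∧
      (w.1 ∈ C ∧ w.2 ∈ C)}.ncard : ℂ) =
      ∑ θ : Irr C, (Nat.card C : ℂ) * ((a g * (θ : C → ℂ) g) / (θ : C → ℂ) 1) := by
    intro g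
    rw [hcard, SO.H65.kap_ncard, SO.H65.frobS, Finset.mul_sum]
    refine Finset.sum_congr rfl fun θ _ => ?_
    ring
  rw [Finset.sum_congr rfl fun g _ => h1 g, Finset.sum_comm]
  -- extension by zero
  obtain ⟨E, hE⟩ : ∃ E : (C → ℂ) → G → ℂ, ∀ θ g, E θ g = if h : g ∈ C then θ ⟨g, h⟩ else 0 :=
    ⟨_, fun _ _ => rfl⟩
  have hE1 : ∀ (θ : C → ℂ) (g : C), E θ g = θ g := by
    intro θ g
    rw [hE, dif_pos g.2]
  have hE0 : ∀ (θ : C → ℂ) (g : G), g ∉ C → E θ g = 0 := by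
    intro θ g hg
    rw [hE, dif_neg hg]
  have hcv : ∀ θ : C → ℂ, cv a (E θ) = ∑ g : C, (a g * θ g) / θ 1 := by
    intro θ
    unfold cv
    rw [H75.sum_sub C _ (fun g hg => by rw [ha g hg, zero_mul]), finsum_eq_sum_of_fintype,
      Finset.sum_div]
    refine Finset.sum_congr rfl fun g _ => ?_
    rw [hE1]
    have h2 := hE1 θ 1
    rw [OneMemClass.coe_one] at h2
    rw [h2]
  have h3 : ∀ θ : Irr C, ∑ g : C, (Nat.card C : ℂ) * ((a g * (θ : C → ℂ) g) / (θ : C → ℂ) 1) =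
      (Nat.card C : ℂ) * cv a (E (θ : C → ℂ)) := by
    intro θ
    rw [hcv, Finset.mul_sum]
  rw [Finset.sum_congr rfl fun θ _ => h3 θ, ← Finset.mul_sum, inv_mul_cancel_left₀ hC0]
  have hinj : Set.InjOn E (Irr C) := by
    intro θ _ θ' _ h
    funext g
    rw [← hE1 θ g, h, hE1]
  have h4 : ∑ θ : Irr C, cv a (E (θ : C → ℂ)) = ∑ᶠ χ ∈ E '' Irr C, cv a χ := by
    rw [finsum_mem_image hinj, ← finsum_set_coe_eq_finsum_mem (s := Irr C)
      (f := fun θ : C → ℂ => cv a (E θ)), finsum_eq_sum_of_fintype]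
  rw [h4]
  refine finsum_mem_inter_support_eq _ _ _ ?_
  ext χ
  constructor
  · rintro ⟨⟨θ, hθ, rfl⟩, hχ⟩
    refine ⟨?_, hχ⟩
    by_contra hn
    refine hχ (hz _ (hE0 θ) ?_ hn)
    have h5 : (fun t : C => E θ t) = θ := funext (hE1 θ)
    rw [h5]
    exact hθ
  · rintro ⟨h5, hχ⟩
    refine ⟨⟨_, (hS χ h5).2, ?_⟩, hχ⟩
    funext g
    by_cases hg : g ∈ C
    · exact hE1 _ ⟨g, hg⟩
    · rw [hE0 _ g hg, (hS χ h5).1 g hg]

theorem wta (hye : HyeStmt) (czb : CzbStmt) (pex : SO.PexStmt) : WtaStmt := by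
  intro ℓ hℓ M _ hM h2 V₀ G _ _ _ _ E₀ hq B hB D hD a ha κ hκ
  classical
  have ha0 : a ≠ ⊥ := by
    rintro rfl
    have h := ha.1
    rw [Subgroup.card_bot] at h
    exact hℓ.out.one_lt.ne h
  have hcz := czb ℓ M hM h2 V₀ G E₀ hq B hB.toSb a
  have hczk := hcz.2.2.1 (D.et a) (hD.e1 a ha0) κ hκ
  refine ⟨?_, (hD.e7 a ha κ hκ).1, ?_⟩
  · obtain ⟨r, m, -, hpe⟩ := pex ℓ G
    obtain ⟨T, hT⟩ : ∃ T : Set (V₀ × ℕ), T = {t | t.1 ∈ a ∧ t.2 = 0} := ⟨_, rfl⟩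
    have hcl : Subgroup.closure {α | ∃ t ∈ T, t.1 = α} = a := by
      have h1 : {α | ∃ t ∈ T, t.1 = α} = (a : Set V₀) := by
        ext α
        constructor
        · rintro ⟨t, ht, rfl⟩
          rw [hT] at ht
          exact ht.1
        · intro hα
          refine ⟨(α, 0), ?_, rfl⟩
          rw [hT]
          exact ⟨hα, rfl⟩
      rw [h1, Subgroup.closure_eq]
    have h3 := hye ℓ M hM h2 V₀ G E₀ hq B hB D hD (ℓ ^ r) m hpe a ha κ hκ T hcl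
    have hQL : QL E₀ (LT T) = {w : MulAut V₀ × V₀ | w.1 ∈ St E₀ a} := by
      ext w
      constructor
      · rintro ⟨h4, h5⟩
        refine ⟨h4, fun α hα => ?_⟩
        have h6 := h5 (α, α, 0) ⟨(α, 0), by rw [hT]; exact ⟨hα, rfl⟩, rfl⟩
        change w.1 (α * w.2 ^ (0 : ℤ)) = α at h6
        rwa [zpow_zero, mul_one] at h6
      · rintro ⟨h4, h5⟩
        refine ⟨h4, ?_⟩
        rintro _ ⟨⟨α, i⟩, ht, rfl⟩
        rw [hT] at ht
        obtain ⟨hα, hi⟩ := ht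
        change i = 0 at hi
        subst hi
        change w.1 (α * w.2 ^ ((0 : ℕ) : ℤ)) = α
        rw [Nat.cast_zero, zpow_zero, mul_one]
        exact h5 α hα
    rw [← hQL, ← h3]
    unfold HY SE1
    have hset : ∀ g : G, {w : G × G | SO.kap w.1 w.2 = g ∧ ∀ t ∈ T,
        B.i t.1 * w.1 = w.1 * B.i t.1 ∧ w.2⁻¹ * B.i t.1 * w.2 = B.i t.1 * (w.1 ^ m) ^ t.2} =
        {w : G × G | SO.kap w.1 w.2 = g ∧ (w.1 ∈ B.C a ∧ w.2 ∈ B.C a)} := by
      intro g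
      ext w
      refine and_congr_right fun _ => ?_
      unfold Bk.C
      rw [Subgroup.mem_centralizer_iff, Subgroup.mem_centralizer_iff]
      constructor
      · intro h4
        constructor
        · rintro _ ⟨α, hα, rfl⟩
          exact (h4 (α, 0) (by rw [hT]; exact ⟨hα, rfl⟩)).1
        · rintro _ ⟨α, hα, rfl⟩
          have h5 := (h4 (α, 0) (by rw [hT]; exact ⟨hα, rfl⟩)).2
          change w.2⁻¹ * B.i α * w.2 = B.i α * (w.1 ^ m) ^ 0 at h5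
          rw [pow_zero, mul_one, mul_assoc, inv_mul_eq_iff_eq_mul] at h5
          exact h5
      · rintro ⟨h4, h5⟩ ⟨α, i⟩ ht
        rw [hT] at ht
        obtain ⟨hα, hi⟩ := ht
        change i = 0 at hi
        subst hi
        refine ⟨h4 _ ⟨α, hα, rfl⟩, ?_⟩
        change w.2⁻¹ * B.i α * w.2 = B.i α * (w.1 ^ m) ^ 0
        rw [pow_zero, mul_one, mul_assoc, inv_mul_eq_iff_eq_mul]
        exact h5 _ ⟨α, hα, rfl⟩
    simp only [hset]
    rw [frob_sub (B.C a) (tk B κ (D.et a)) hczk.1.sup (Ch B a)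
      (fun ψ hψ => ⟨hψ.1, hψ.2.1⟩) (fun ψ h4 h5 h6 => hczk.1.blk ψ h4 h5 h6)]
    exact finsum_mem_congr rfl fun χ hχ => hczk.2 χ hχ
  · intro ζ
    unfold LW
    have hfa : Finite (MulAut V₀) :=
      Finite.of_injective (fun σ : MulAut V₀ => (σ : V₀ → V₀)) DFunLike.coe_injective
    have hfin : {τ : MulAut V₀ | τ ∈ E₀ ∧ τ ∉ St E₀ a}.Finite := Set.toFinite _
    rw [finsum_mem_eq_finite_toFinset_sum _ hfin, Finset.sum_div]
    refine sum_mem fun τ hτ => ?_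
    exact hD.e6 a ha κ hκ τ (hfin.mem_toFinset.1 hτ).1 _

end Pool.Agent.PP.SE.H13
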